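import Pool.Agent.Y113.P.Fin
import Pool.Agent.R351.GD.Prod
import Pool.Agent.R351.GD.PB

/-!
# Legendre functions: the G-systems of the monomials, with exponents which are polynomial in the degree
-/

set_option autoImplicit false

open PowerSeries Finset.HasAntidiagonal

namespace Pool.Agent.R351.GD

open Pool.Agent.Y113

section

variable {ι κ : Type} [Fintype ι] [Fintype κ] {q : ℕ} {C : ℝ} {T : Polynomial ℤ} {y : ι → ℚ⟦X⟧} {w : κ → ℚ⟦X⟧}

/-- a subfamily with the same span over `ℤ` -/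
theorem quot2 (hy : GSys q C T y) (fM : κ → ι) (M : ι → κ → ℤ) (hf : ∀ j, w j = y (fM j))
    (he : ∀ i, y i = ∑ j, (M i j : ℚ⟦X⟧) * w j) (B N : ℝ) (hB : ∀ i j, |((M i j : ℤ) : ℝ)| ≤ B) (hB1 : 1 ≤ B)
    (hN1 : 1 ≤ N) (hN : (Fintype.card ι : ℝ) ≤ N) :
    GSys q (N * B * C) T w := by
  classical
  have hC := hy.one_le
  have hC0 : 0 < C := zero_lt_one.trans_le hC
  have hNB1 : 1 ≤ N * B := one_le_mul_of_one_le_of_one_le hN1 hB1
  have hCC : C ≤ N * B * C := le_mul_of_one_le_left hC0.le hNB1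
  have hC2 : ∀ m : ℕ, C ^ (m + 1) ≤ (N * B * C) ^ (m + 1) := fun m =>
    pow_le_pow_left₀ hC0.le hCC _
  refine ⟨hC.trans hCC, hy.degT, fun l => (hy.sizeT l).trans hCC, ?_, ?_, ?_⟩
  · intro j m
    rw [hf j]
    exact (hy.size _ m).trans (hC2 m)
  · intro m
    obtain ⟨d, hd0, hd, hd'⟩ := hy.den m
    refine ⟨d, hd0, hd.trans (hC2 m), fun j l hl => ?_⟩
    rw [hf j]
    exact hd' _ l hl
  · intro k
    obtain ⟨g, hg0, hg, hg'⟩ := hy.der k
    refine ⟨g, hg0, hg.trans (hC2 k), fun s hs => ?_⟩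
    obtain ⟨G, h1, h2, h3⟩ := hg' s hs
    have hBd : ∀ j j', Bd (q * s) ((Finset.univ : Finset ι).card * (B * C ^ (k + 1)))
        (∑ i, (Polynomial.C (M i j')) * G (fM j) i) := by
      intro j j'
      refine Bd.sum _ fun i _ => ⟨(Polynomial.natDegree_C_mul_le _ _).trans (h1 _ i), fun l => ?_⟩
      rw [Polynomial.coeff_C_mul]
      push_cast
      rw [abs_mul]
      exact mul_le_mul (hB i j') (h2 _ i l) (abs_nonneg _) (by linarith)
    refine ⟨fun j j' => ∑ i, (Polynomial.C (M i j')) * G (fM j) i,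
      fun j j' => (hBd j j').1, fun j j' l => ((hBd j j').2 l).trans ?_, fun j => ?_⟩
    · have e1 : ((Finset.univ : Finset ι).card : ℝ) ≤ N := by
        rw [Finset.card_univ]
        exact hN
      calc ((Finset.univ : Finset ι).card : ℝ) * (B * C ^ (k + 1)) ≤ N * (B * C ^ (k + 1)) :=
            mul_le_mul_of_nonneg_right e1 (by positivity)
        _ = (N * B) * C ^ (k + 1) := by ring
        _ ≤ (N * B) ^ (k + 1) * C ^ (k + 1) :=
            mul_le_mul_of_nonneg_right (le_self_pow₀ hNB1 (by omega)) (by positivity)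
        _ = _ := by rw [← mul_pow]
    · rw [hf j, h3]
      simp only [ps_sum, Finset.sum_mul]
      rw [Finset.sum_comm]
      refine Finset.sum_congr rfl fun i _ => ?_
      rw [he i, Finset.mul_sum]
      refine Finset.sum_congr rfl fun j' _ => ?_
      rw [ps_mul]
      have e3 : ps (Polynomial.C (M i j')) = (M i j' : ℚ⟦X⟧) := by
        unfold ps
        rw [Polynomial.map_C, Polynomial.coe_C]
        simp
      rw [e3]
      ring

end

/-- all products of `Δ` functions of the base family -/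
theorem words5 {g : ℕ} {C : ℝ} (h : GSys 3 C (TT g) (base g)) (Δ : ℕ) :
    GSys 3 ((2 ^ 4 * C) ^ Δ * C) (TT g) (fun f : Fin Δ → Fin 5 => ∏ i, base g (f i)) := by
  induction Δ with
  | zero =>
    have h1 := GSys.const (ι := Fin 0 → Fin 5) h.one_le h.degT h.sizeT
    simpa using h1
  | succ Δ ih =>
    have h3 := prod_asym h ih
    have h4 := h3.reindex (Fin.consEquiv fun _ => Fin 5).symm
    have h5 : (fun f : Fin (Δ + 1) → Fin 5 => ∏ i, base g (f i)) = fun j =>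
        base g ((Fin.consEquiv fun _ => Fin 5).symm j).1 * ∏ i, base g (((Fin.consEquiv fun _ => Fin 5).symm j).2 i) := by
      funext f
      rw [Fin.prod_univ_succ]
      rfl
    rw [h5]
    refine h4.mono le_rfl (le_of_eq ?_)
    rw [pow_succ]
    ring

/-- the monomials in the four functions form a G-system -/
theorem mon4 (ho : T_ode) {g : ℕ} {C : ℝ} (h : GSys 3 C (TT g) (base g)) (Δ : ℕ) :
    GSys 3 ((2 * C) ^ (9 * Δ + 1)) (TT g) (fun e : Ex Δ => mon g e) := by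
  have hC := h.one_le
  have h1 := words5 h Δ
  -- the matrices
  have hM : ∀ e : Ex Δ, ∃ f : Fin Δ → Fin 5, ∏ i, base g (f i) = mon g e := by
    intro e
    obtain ⟨f, hf⟩ := exists_word Δ (fun i => (e.1 i : ℕ)) e.sum_le
    exact ⟨f, hf (four g)⟩
  choose fM hfM using hM
  have hM' : ∀ f : Fin Δ → Fin 5, ∃ co : Ex Δ → ℤ, (∀ s, |((co s : ℤ) : ℝ)| ≤ 2 ^ Δ) ∧
      ∏ i, base g (f i) = ∑ s : Ex Δ, (co s : ℚ⟦X⟧) * mon g s := by
    intro f
    obtain ⟨e, he, he'⟩ := word_exp Δ f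
    rw [Fin.sum_univ_four] at he
    obtain ⟨co, hc, hc'⟩ := reduce Δ (e 0) (e 1) (e 2) (e 3) he
    refine ⟨co, fun s => (hc s).trans (pow_le_pow_right₀ (by norm_num) (by omega)), ?_⟩
    have e1 : ∏ i, base g (f i) = ∏ i, four g i ^ e i := he' (four g)
    rw [e1, Fin.prod_univ_four]
    refine (hc' (uu g) (vv g) (ww g) (xx g) (ho g).1).trans ?_
    refine Finset.sum_congr rfl fun s _ => ?_
    congr 1
    unfold mon
    rw [Fin.prod_univ_four]
    rfl
  choose co hco hco' using hM'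
  have h2 := quot2 h1 fM co (fun e => (hfM e).symm) hco' (2 ^ Δ) (2 ^ (3 * Δ)) hco (one_le_pow₀ (by norm_num))
    (one_le_pow₀ (by norm_num)) (by
      rw [Fintype.card_fun, Fintype.card_fin, Fintype.card_fin]
      push_cast
      rw [pow_mul]
      exact pow_le_pow_left₀ (by norm_num) (by norm_num) _)
  refine h2.mono le_rfl ?_
  have h22 : (2 : ℝ) ≤ 2 * C := by linarith
  have h21 : (1 : ℝ) ≤ 2 * C := by linarith
  have hCC : C ≤ 2 * C := by linarith
  calc (2 : ℝ) ^ (3 * Δ) * 2 ^ Δ * ((2 ^ 4 * C) ^ Δ * C)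
      ≤ (2 * C) ^ (3 * Δ) * (2 * C) ^ Δ * (((2 * C) ^ 4 * (2 * C)) ^ Δ * (2 * C)) := by
        gcongr
    _ = (2 * C) ^ (9 * Δ + 1) := by
        rw [← pow_succ, ← pow_mul, ← pow_add, ← pow_succ, ← pow_add]
        congr 1
        ring

/-- the system of all monomials at several shifts -/
theorem fin_exp (ho : T_ode) (hb : T_base) (k : ℕ) : ∃ q : ℕ, ∃ E : ℕ → ℕ, PB E ∧ ∀ (Δ H : ℕ) (g : Fin k → ℕ),
    (∀ l, g l ≤ H) → GSys q (((H : ℝ) + 2) ^ E Δ) (PT g) (pmon (Δ := Δ) g) := by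
  obtain ⟨Eb, hEb⟩ := hb
  have hE₀ : ∀ Δ g : ℕ, GSys 3 (((g : ℝ) + 2) ^ ((Eb + 1) * (9 * Δ + 1))) (TT g) (fun e : Ex Δ => mon g e) :=
    fun Δ g => (mon4 ho (hEb g) Δ).mono le_rfl (pow_base g _ _)
  have hE₀p : PB fun Δ => (Eb + 1) * (9 * Δ + 1) :=
    (PB.const (Eb + 1)).mul (((PB.const 9).mul PB.id).add (PB.const 1))
  induction k with
  | zero =>
    refine ⟨0, fun _ => 0, PB.const 0, fun Δ H g _ => ?_⟩
    have h1 : GSys 0 (1 : ℝ) 1 (fun _ : Fin 0 → Ex Δ => (1 : ℚ⟦X⟧)) := by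
      refine GSys.const le_rfl (by simp) fun l => ?_
      rw [Polynomial.coeff_one]
      split_ifs <;> simp
    have h2 : (pmon (Δ := Δ) g) = fun _ => 1 := by
      funext b
      simp [pmon]
    have h3 : PT g = 1 := by simp [PT]
    rw [h2, h3]
    simpa using h1
  | succ k ih =>
    obtain ⟨q, Ek, hEkp, hEk⟩ := ih
    obtain ⟨E₁, hE₁⟩ := t_enl 3 q
    obtain ⟨E₂, hE₂⟩ := t_enl q 3
    refine ⟨q + 3, fun Δ => (q + 3 + 1) + 2 * (((Eb + 1) * (9 * Δ + 1) + Ek Δ + 1) * (E₁ + E₂)), ?_,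
      fun Δ H g hg => ?_⟩
    · exact (PB.const (q + 3 + 1)).add ((PB.const 2).mul (((hE₀p.add hEkp).add (PB.const 1)).mul (PB.const (E₁ + E₂))))
    have hE₀ := hE₀ Δ
    have hE := hEk Δ H
    set E₀ := (Eb + 1) * (9 * Δ + 1)
    set E := Ek Δ
    set E' := E₀ + E with hE'
    set E'' := (E' + 1) * (E₁ + E₂) with hE''
    have hg1 := one_le_base H
    have hgH : ((g 0 : ℕ) : ℝ) + 2 ≤ (H : ℝ) + 2 := by
      have : ((g 0 : ℕ) : ℝ) ≤ H := by exact_mod_cast hg 0
      linarith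
    have h1 : GSys 3 (((H : ℝ) + 2) ^ E') (TT (g 0)) (fun e : Ex Δ => mon (g 0) e) := by
      refine (hE₀ (g 0)).mono le_rfl ?_
      exact (pow_le_pow_left₀ (by positivity) hgH _).trans (base_mono hg1 (Nat.le_add_right _ _))
    have h2 : GSys q (((H : ℝ) + 2) ^ E') (PT fun l : Fin k => g l.succ) (pmon (Δ := Δ) fun l : Fin k => g l.succ) :=
      (hE _ fun l => hg l.succ).mono le_rfl (base_mono hg1 (Nat.le_add_left _ _))
    have h3 := hE₁ _ _ _ (PT fun l : Fin k => g l.succ) _ h1 h2.degT h2.sizeT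
    have h4 := hE₂ _ _ _ (TT (g 0)) _ h2 h1.degT h1.sizeT
    have hE1 : (2 * ((H : ℝ) + 2) ^ E') ^ E₁ ≤ ((H : ℝ) + 2) ^ E'' := by
      refine (pow_base H _ _).trans (base_mono hg1 ?_)
      exact Nat.mul_le_mul_left _ (Nat.le_add_right _ _)
    have hE2 : (2 * ((H : ℝ) + 2) ^ E') ^ E₂ ≤ ((H : ℝ) + 2) ^ E'' := by
      refine (pow_base H _ _).trans (base_mono hg1 ?_)
      exact Nat.mul_le_mul_left _ (Nat.le_add_left _ _)
    have hPT : PT g = TT (g 0) * PT (fun l : Fin k => g l.succ) := by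
      simp [PT, Fin.prod_univ_succ]
    have h5 : GSys (q + 3) (((H : ℝ) + 2) ^ E'') (PT g) (fun e : Ex Δ => mon (g 0) e) := by
      rw [hPT]
      exact h3.mono (by omega) hE1
    have h6 : GSys (q + 3) (((H : ℝ) + 2) ^ E'') (PT g) (pmon (Δ := Δ) fun l : Fin k => g l.succ) := by
      rw [hPT, mul_comm]
      exact h4.mono le_rfl hE2
    have hC' : (2 : ℝ) ^ (q + 3 + 1) * (((H : ℝ) + 2) ^ E'' * ((H : ℝ) + 2) ^ E'') ≤
        ((H : ℝ) + 2) ^ ((q + 3 + 1) + 2 * E'') := by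
      rw [pow_add ((H : ℝ) + 2), two_mul E'', pow_add ((H : ℝ) + 2) E'']
      refine mul_le_mul_of_nonneg_right ?_ (by positivity)
      exact pow_le_pow_left₀ (by norm_num) (by linarith [show (0 : ℝ) ≤ H by positivity]) _
    have h7 := (prod_asym h5 h6).mono le_rfl hC'
    have h8 := h7.reindex (Fin.consEquiv fun _ => Ex Δ).symm
    have h9 : (pmon (Δ := Δ) g) = fun j =>
        mon (g 0) ((Fin.consEquiv fun _ => Ex Δ).symm j).1 *
          pmon (Δ := Δ) (fun l : Fin k => g l.succ) ((Fin.consEquiv fun _ => Ex Δ).symm j).2 := by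
      funext b
      unfold pmon
      rw [Fin.prod_univ_succ]
      rfl
    rw [h9]
    exact h8

end Pool.Agent.R351.GD
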