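import Pool.Agent.Y113.W.WinK
import Pool.Agent.Y113.W.All
import Pool.Agent.Y916.Om.AW
import Pool.Agent.R351.GD.L.Fin
import Pool.Agent.R351.GD.L.Mon
import Pool.Agent.TH659.AQ.Leg

/-!
# Legendre functions: no relations of small degree between the values
-/

set_option autoImplicit false

open PowerSeries

namespace Pool.Agent.R351.GD

open Pool.Agent.Y113

lemma aeval_expoQ {ι : Type} [Fintype ι] [DecidableEq ι] {δ : ℕ} {Q : MvPolynomial ι ℚ} (hQ : Q.totalDegree ≤ δ)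
    (z : ι → ℝ) :
    MvPolynomial.aeval z Q = ∑ s : {s // s ∈ expoI ι δ}, Q.coeff s.1 • ∏ i, z i ^ (s.1 i) := by
  rw [MvPolynomial.aeval_def, MvPolynomial.eval₂_eq',
    Finset.sum_coe_sort (expoI ι δ) (fun s => Q.coeff s • ∏ i, z i ^ (s i))]
  have h1 : ∀ s : ι →₀ ℕ, (algebraMap ℚ ℝ) (Q.coeff s) * ∏ i, z i ^ s i = Q.coeff s • ∏ i, z i ^ (s i) := fun s => by
    rw [Algebra.smul_def]
  rw [Finset.sum_congr rfl fun s _ => h1 s]
  refine Finset.sum_subset (fun s hs => ?_) fun s _ hs => ?_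
  · rw [mem_expoI]
    have := MvPolynomial.le_totalDegree hs
    rw [deg_eqI] at this
    exact this.trans hQ
  · rw [MvPolynomial.notMem_support_iff.1 hs]
    simp

lemma card_Ex (Δ : ℕ) : Fintype.card (Ex Δ) ≤ (Δ + 1) ^ 4 := by
  calc Fintype.card (Ex Δ) ≤ Fintype.card (Fin 4 → Fin (Δ + 1)) := by
        refine Fintype.card_le_of_injective (fun e => e.1) ?_
        intro a b h
        exact Subtype.ext h
    _ = (Δ + 1) ^ 4 := by rw [Fintype.card_fun, Fintype.card_fin, Fintype.card_fin]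

/-- the values -/
noncomputable def lgv (t g : ℕ) (a : Fin 3) : ℝ := ![ev t (uu g), ev t (vv g), ev t (ww g)] a

theorem leg_norel (N : ℕ) : ∃ E : ℕ → ℕ, PB E ∧ ∀ (Δ H t : ℕ), (H + 2) ^ E Δ ≤ t → ∀ g : Fin N → ℕ,
    Function.Injective g → (∀ l, g l ≤ H) → ∀ P : MvPolynomial (Fin N × Fin 3) ℚ, P.totalDegree ≤ Δ →
    MvPolynomial.aeval (fun x : Fin N × Fin 3 => lgv t (g x.1) x.2) P = 0 → P = 0 := by
  obtain ⟨E₀, hsd⟩ := t_sd
  obtain ⟨q, EF, hEFp, hF⟩ := fin_exp Pool.Agent.Y37.GF.t_ode (base_of Pool.Agent.Y37.GF.t_ode) N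
  obtain ⟨EG, hEGp, hG⟩ := gof_exp Pool.Agent.Y141.GF.t_shid Pool.Agent.Y141.GF.t_loc q
  refine ⟨fun Δ => 1 + (E₀ + 1) + (EF Δ + 1) * EG (((Δ + 1) ^ 4) ^ N), ?_, fun Δ H t ht g hinj hgH P hP hP0 => ?_⟩
  · have h1 : PB fun Δ : ℕ => ((Δ + 1) ^ 4) ^ N := ((PB.id.add (PB.const 1)).pow 4).pow N
    exact (PB.const (1 + (E₀ + 1))).add ((hEFp.add (PB.const 1)).mul (hEGp.comp h1))
  have hF := hF Δ
  have hG := hG (((Δ + 1) ^ 4) ^ N)
  set EF := EF Δ
  set EG := EG (((Δ + 1) ^ 4) ^ N)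
  set E := 1 + (E₀ + 1) + (EF + 1) * EG with hE
  have ht' : (H + 2) ^ E ≤ t := ht
  have hH2 : (1 : ℝ) ≤ (H : ℝ) + 2 := one_le_base H
  have htR : ((H : ℝ) + 2) ^ E ≤ t := by exact_mod_cast ht'
  have hge : ∀ a ≤ E, ((H : ℝ) + 2) ^ a ≤ t := fun a ha => (base_mono hH2 ha).trans htR
  have ht2 : H + 2 ≤ t := by
    have h1 : H + 2 ≤ (H + 2) ^ E := Nat.le_self_pow (by omega) _
    exact h1.trans ht'
  have ht0 : (0 : ℝ) < t := by exact_mod_cast (by omega : 0 < t)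
  -- convergence
  have hcv : ∀ l j, Cv t (base (g l) j) := by
    intro l j
    refine cv_base (hsd (g l)).1 ?_ j
    have hgR : ((g l : ℕ) : ℝ) + 2 ≤ (H : ℝ) + 2 := by
      have : ((g l : ℕ) : ℝ) ≤ H := by exact_mod_cast hgH l
      linarith
    refine lt_of_le_of_lt (pow_le_pow_left₀ (by positivity) hgR _) ?_
    refine lt_of_lt_of_le ?_ (hge (E₀ + 1) (by rw [hE]; omega))
    exact pow_lt_pow_right₀ (by linarith [show (0 : ℝ) ≤ H by positivity]) (by omega)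
  have hone : pmon (Δ := Δ) g (fun _ => ⟨fun _ => 0, by simp, Or.inl rfl⟩) = 1 := by
    unfold pmon mon
    simp
  have hEG : (2 * ((H : ℝ) + 2) ^ EF) ^ EG ≤ t := by
    refine (pow_base H _ _).trans (hge _ ?_)
    rw [hE]
    omega
  have hcard : Fintype.card (Fin N → Ex Δ) ≤ ((Δ + 1) ^ 4) ^ N := by
    rw [Fintype.card_fun, Fintype.card_fin]
    exact Nat.pow_le_pow_left (card_Ex Δ) N
  have hind := hG (Fin N → Ex Δ) (((H : ℝ) + 2) ^ EF) (PT g) (pmon (Δ := Δ) g)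
    (fun _ => ⟨fun _ => 0, by simp, Or.inl rfl⟩) t hcard (hF H g hgH) hone (Pool.Agent.Y37.GF.t_LI N Δ g hinj) hEG
    (PT_ne g t H hgH ht2)
  have hind2 := hind.comp (fun s : {s // s ∈ expoI (Fin N × Fin 3) Δ} => ixk Δ s) (ixk_inj Δ)
  rw [aeval_expoQ hP] at hP0
  have h3 := Fintype.linearIndependent_iff.1 hind2 (fun s => P.coeff s.1) (by
    rw [← hP0]
    refine Finset.sum_congr rfl fun s _ => congrArg _ ?_
    show ev t (pmon (Δ := Δ) g (ixk Δ s)) = _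
    unfold pmon
    rw [Cv.ev_prod ht0 _ _ fun p _ => cv_mon ht0 (hcv _) _, Fintype.prod_prod_type]
    refine Finset.prod_congr rfl fun i _ => ?_
    rw [ev_mon ht0 (hcv i), Fin.prod_univ_four, Fin.prod_univ_three]
    obtain ⟨a0, a1, a2, a3⟩ := ixk_val Δ s i
    rw [a0, a1, a2, a3, pow_zero, mul_one]
    rfl)
  ext s
  rw [MvPolynomial.coeff_zero]
  by_contra hne
  have hs : s ∈ P.support := MvPolynomial.mem_support_iff.2 hne
  have h4 := MvPolynomial.le_totalDegree hs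
  rw [deg_eqI] at h4
  exact hne (h3 ⟨s, mem_expoI.2 (h4.trans hP)⟩)

/-- the exponents -/
noncomputable def Evl (N : ℕ) : ℕ → ℕ := (leg_norel N).choose

theorem Evl_pb (N : ℕ) : PB (Evl N) := (leg_norel N).choose_spec.1

theorem leg_inp : Pool.Agent.Y916.Om.Inp Evl (fun t : ℕ => t) (fun t g (a : Fin 3) => ((lgv t g a : ℝ) : ℂ)) := by
  intro N Δ H t ht g hg hgb P hP hP0
  refine (leg_norel N).choose_spec.2 Δ H t ht g hg (fun l => (hgb l).2) P hP ?_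
  have h3 := MvPolynomial.aeval_algebraMap_apply (A := ℝ) ℂ
    (fun x : Fin N × Fin 3 => lgv t (g x.1) x.2) P
  have h4 : MvPolynomial.aeval (fun x : Fin N × Fin 3 => (algebraMap ℝ ℂ) (lgv t (g x.1) x.2)) P = 0 := hP0
  exact (algebraMap ℝ ℂ).injective ((h3.symm.trans h4).trans (map_zero _).symm)

/-- the values in terms of the periods -/
theorem leg_vals : ∃ (E : ℕ) (α : ℝ), ∀ (g t : ℕ), (g + 2) ^ E ≤ t →
    KK (1 / ((t : ℝ) - g)) = Real.pi / 2 * lgv t g 0 ∧ EE (1 / ((t : ℝ) - g)) = Real.pi / 2 * lgv t g 1 ∧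
    KK (1 - 1 / ((t : ℝ) - g)) = lgv t g 2 + (α + 1 / 2 * Real.log t) * lgv t g 0 := by
  obtain ⟨α, β, hβ, hleg, h⟩ := Pool.Agent.Y37.GF.values
  have hβ1 : β = 1 := by
    have h1 := hleg (1 / 2) (by norm_num) (by norm_num)
    have h2 := Pool.Agent.TH659.AQ.legHalf (1 / 2) (by norm_num) (by norm_num)
    have h3 : KK (1 / 2) * EE (1 - 1 / 2) + EE (1 / 2) * KK (1 - 1 / 2) - KK (1 / 2) * KK (1 - 1 / 2) = Real.pi / 2 := h2
    rw [h3] at h1
    have hpi := Real.pi_pos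
    field_simp at h1
    linarith
  subst hβ1
  refine ⟨4, α, fun g t ht' => ?_⟩
  have ht : ((g : ℝ) + 2) ^ 4 ≤ (t : ℝ) := by exact_mod_cast ht'
  have hg : (0 : ℝ) ≤ (g : ℝ) := by positivity
  have h1 : (g : ℝ) + 8 < ((g : ℝ) + 2) ^ 4 := by
    have : (8 : ℝ) * ((g : ℝ) + 2) ≤ ((g : ℝ) + 2) ^ 4 := by
      have h2 : (8 : ℝ) ≤ ((g : ℝ) + 2) ^ 3 := by
        calc (8 : ℝ) = 2 ^ 3 := by norm_num
          _ ≤ ((g : ℝ) + 2) ^ 3 := by gcongr; linarith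
      calc (8 : ℝ) * ((g : ℝ) + 2) ≤ ((g : ℝ) + 2) ^ 3 * ((g : ℝ) + 2) := by gcongr
        _ = _ := by ring
    linarith
  have ht8 : (g : ℝ) + 8 < t := lt_of_lt_of_le h1 ht
  have ht0 : (0 : ℝ) < t := by linarith
  have htg : (t : ℝ) - g ≠ 0 := by linarith
  have hs : (1 / (t : ℝ)) / (1 - g * (1 / t)) = 1 / (t - g) := by
    field_simp
  have := h g (1 / t) (by positivity) (by
    apply one_div_lt_one_div_of_lt (by positivity) ht8)
  rw [hs] at this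
  have hl : Real.log (1 / (t : ℝ)) = - Real.log t := by rw [one_div, Real.log_inv]
  rw [hl] at this
  have e0 : lgv t g 0 = ev t (uu g) := rfl
  have e1 : lgv t g 1 = ev t (vv g) := rfl
  have e2 : lgv t g 2 = ev t (ww g) := rfl
  rw [e0, e1, e2]
  simp only [Pool.Agent.Y37.GF.ev_eq]
  refine ⟨this.1, this.2.1, ?_⟩
  rw [this.2.2.1]
  ring

end Pool.Agent.R351.GD
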