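import Pool.Agent.R351.GD.L.Win
import Pool.Agent.R351.GD.Multi
import Pool.Agent.H340R2.LW

/-!
# Periods of Legendre curves: tuples, growing degrees
-/

set_option autoImplicit false

open Module

namespace Pool.Agent.R351.GD

open Pool.Agent.Y113

/-- change of the constants and of the variables -/
theorem RelK.embed {Ω : Type} [Field Ω] [CharZero Ω] {υ υ' κ κ' : Type} {δ : ℕ} {w : υ → Ω} {y : κ → Ω}
    (h : RelK δ w y) (w' : υ' → Ω) (f : υ → υ') (hf : ∀ j, w' (f j) = w j) (e : κ ≃ κ') :
    RelK δ w' (fun j => y (e.symm j)) := by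
  obtain ⟨K, h1, h2, P, h3, h4, h5⟩ := h
  refine ⟨K, h1, h2, MvPolynomial.rename (Sum.map f e) P, (MvPolynomial.totalDegree_rename_le _ _).trans h3, ?_, ?_⟩
  · rw [MvPolynomial.aeval_rename, ← h4]
    congr 2
    funext x
    rcases x with x | x
    · exact hf x
    · simp
  · intro h6
    apply h5
    rw [MvPolynomial.aeval_rename] at h6
    have h7 := congrArg (MvPolynomial.rename (R := Ω) e.symm) h6
    rw [map_zero] at h7
    rw [← h7]
    have h8 : ((MvPolynomial.rename e.symm : MvPolynomial κ' Ω →ₐ[Ω] MvPolynomial κ Ω).restrictScalars K).comp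
        (MvPolynomial.aeval ((Sum.elim (fun j => MvPolynomial.C (w' j)) MvPolynomial.X :
          υ' ⊕ κ' → MvPolynomial κ' Ω) ∘ Sum.map f e)) =
        (MvPolynomial.aeval (Sum.elim (fun j => MvPolynomial.C (w j)) MvPolynomial.X) :
          MvPolynomial (υ ⊕ κ) K →ₐ[K] MvPolynomial κ Ω) := by
      refine MvPolynomial.algHom_ext fun i => ?_
      rcases i with i | i
      · simp [hf]
      · simp
    exact (DFunLike.congr_fun h8 P).symm

theorem pi_indep (K : IntermediateField ℚ ℂ) (hK : FiniteDimensional ℚ K) :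
    AlgebraicIndependent K (fun _ : Fin 1 => (Real.pi : ℂ)) := by
  rw [algebraicIndependent_unique_type_iff]
  intro h
  have h1 : IsAlgebraic ℚ (Real.pi : ℂ) := by
    haveI : Algebra.IsAlgebraic ℚ K := Algebra.IsAlgebraic.of_finite ℚ K
    exact h.restrictScalars ℚ
  exact Pool.Agent.H340R2.LW.transcendental_pi_complex h1

/-- relations between `π` and other numbers -/
theorem relK_of_pi {κ υ : Type} {δ : ℕ} (y : κ → ℂ) (w : υ → ℂ) (K : IntermediateField ℚ ℂ)
    (hK : FiniteDimensional ℚ K) (hKd : finrank ℚ K ≤ δ) (P : MvPolynomial (Option κ) K) (hP : P.totalDegree ≤ δ)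
    (hP0 : MvPolynomial.aeval (fun o : Option κ => o.elim (Real.pi : ℂ) y) P = 0) (hne : P ≠ 0) :
    RelK δ (fun o : Option υ => o.elim (Real.pi : ℂ) w) y := by
  refine ⟨K, hK, hKd, MvPolynomial.rename (fun o : Option κ => o.elim (Sum.inl none) Sum.inr) P,
    (MvPolynomial.totalDegree_rename_le _ _).trans hP, ?_, ?_⟩
  · rw [MvPolynomial.aeval_rename, ← hP0]
    congr 2
    funext x
    rcases x with _ | x <;> rfl
  · intro h0
    apply hne
    rw [MvPolynomial.aeval_rename] at h0
    set f : Option κ → Fin 1 ⊕ κ := fun o => o.elim (Sum.inl 0) Sum.inr with hf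
    have hfi : Function.Injective f := by
      rintro (_ | a) (_ | b) h
      · rfl
      · simp [hf] at h
      · simp [hf] at h
      · simp only [hf, Option.elim_some, Sum.inr.injEq] at h
        rw [h]
    have h1 := inj_subK (fun _ : Fin 1 => (Real.pi : ℂ)) (pi_indep K hK) (MvPolynomial.rename f P) (by
      rw [MvPolynomial.aeval_rename, ← h0]
      congr 2
      funext x
      rcases x with _ | x <;> rfl)
    exact MvPolynomial.rename_injective f hfi (h1.trans (map_zero _).symm)

open Classical in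
/-- tuples -/
theorem leg_tuples (k q : ℕ) : ∃ C : ℕ, ∀ (δ : ℕ) (w : Fin q → ℂ) (T : ℕ), 1 ≤ T →
      (((Fintype.piFinset fun _ : Fin k => (Finset.Icc 1 T).filter fun n => 2 ≤ n).filter fun t =>
        RelK δ w (tup per t)).card : ℝ) ≤
      C * (T : ℝ) ^ ((k : ℝ) - 1 / ((δ : ℝ) + 2) ^ C) := by
  obtain ⟨C, hC⟩ := gen_tuples Unit (fun _ => per) 2 k q 2 (by
    intro Q
    obtain ⟨E, hEp, hE⟩ := leg_window 1 Q
    refine ⟨E, hEp, fun _ δ w H n hn S hS => ?_⟩
    obtain ⟨S', hS', h⟩ := hE δ H n hn (Fin Q) w (by rw [Fintype.card_fin])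
    refine (Finset.card_le_card fun s hs => ?_).trans hS'
    by_contra hcon
    obtain ⟨-, h2, h3, h4⟩ := hS s hs
    refine h (fun _ => s) (fun i j _ => Subsingleton.elim i j) (fun _ => ⟨h2.le, h3, hcon⟩) ?_
    have h5 := h4.embed (fun o : Option (Fin Q) => o.elim (Real.pi : ℂ) w) some (fun _ => rfl)
      (Equiv.uniqueProd (Fin 3) (Fin 1)).symm
    exact h5)
  exact ⟨C, fun δ w T hT => hC () δ w T hT⟩

end Pool.Agent.R351.GD
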