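import Pool.Agent.R351.GD.L.Inp
import Pool.Agent.R351.GD.P.AH
import Pool.Agent.R351.GD.Gen

/-!
# Periods of Legendre curves in short windows: growing degrees
-/

set_option autoImplicit false

open Module

namespace Pool.Agent.R351.GD

open Pool.Agent.Y113

/-- the substitution over `K` -/
noncomputable def sbK {υ : Type} (K : IntermediateField ℚ ℂ) (r : ℕ) :
    (Option υ) ⊕ Fin r × Fin 3 → MvPolynomial ((Option υ ⊕ Unit) ⊕ Fin r × Fin 3) K :=
  Sum.elim (fun o => MvPolynomial.X (Sum.inl (Sum.inl o))) fun p =>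
    ![MvPolynomial.C (1 / 2 : K) * (MvPolynomial.X (Sum.inl (Sum.inl none)) * MvPolynomial.X (Sum.inr (p.1, 0))),
      MvPolynomial.C (1 / 2 : K) * (MvPolynomial.X (Sum.inl (Sum.inl none)) * MvPolynomial.X (Sum.inr (p.1, 1))),
      MvPolynomial.X (Sum.inr (p.1, 2)) +
        MvPolynomial.X (Sum.inl (Sum.inr ())) * MvPolynomial.X (Sum.inr (p.1, 0))] p.2

theorem sbK_deg {υ : Type} (K : IntermediateField ℚ ℂ) (r : ℕ) (i : (Option υ) ⊕ Fin r × Fin 3) :
    (sbK (υ := υ) K r i).totalDegree ≤ 2 := by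
  rcases i with o | ⟨i, a⟩
  · show (MvPolynomial.X _ : MvPolynomial ((Option υ ⊕ Unit) ⊕ Fin r × Fin 3) K).totalDegree ≤ 2
    rw [MvPolynomial.totalDegree_X]
    omega
  · have h1 : ∀ u v : (Option υ ⊕ Unit) ⊕ Fin r × Fin 3,
        (MvPolynomial.X u * MvPolynomial.X v : MvPolynomial ((Option υ ⊕ Unit) ⊕ Fin r × Fin 3) K).totalDegree ≤ 2 := by
      intro u v
      refine (MvPolynomial.totalDegree_mul _ _).trans ?_
      rw [MvPolynomial.totalDegree_X, MvPolynomial.totalDegree_X]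
    have h2 : ∀ u v : (Option υ ⊕ Unit) ⊕ Fin r × Fin 3,
        (MvPolynomial.C (1 / 2 : K) * (MvPolynomial.X u * MvPolynomial.X v) :
          MvPolynomial ((Option υ ⊕ Unit) ⊕ Fin r × Fin 3) K).totalDegree ≤ 2 := by
      intro u v
      refine (MvPolynomial.totalDegree_mul _ _).trans ?_
      rw [MvPolynomial.totalDegree_C, zero_add]
      exact h1 u v
    fin_cases a
    · exact h2 _ _
    · exact h2 _ _
    · refine (MvPolynomial.totalDegree_add _ _).trans (max_le ?_ (h1 _ _))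
      rw [MvPolynomial.totalDegree_X]
      omega

theorem aeval_deg2 {σ τ R : Type} [CommRing R] [Nontrivial R] (f : σ → MvPolynomial τ R)
    (hf : ∀ i, (f i).totalDegree ≤ 2) (P : MvPolynomial σ R) {δ : ℕ} (hP : P.totalDegree ≤ δ) :
    (MvPolynomial.aeval f P).totalDegree ≤ 2 * δ := by
  classical
  rw [MvPolynomial.aeval_def, MvPolynomial.eval₂_eq]
  refine MvPolynomial.totalDegree_finsetSum_le fun m hm => ?_
  refine (MvPolynomial.totalDegree_mul _ _).trans ?_
  rw [MvPolynomial.algebraMap_eq, MvPolynomial.totalDegree_C, zero_add]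
  refine (MvPolynomial.totalDegree_finsetProd _ _).trans ?_
  calc ∑ i ∈ m.support, (f i ^ m i).totalDegree ≤ ∑ i ∈ m.support, 2 * m i := by
        refine Finset.sum_le_sum fun i _ => ?_
        refine (MvPolynomial.totalDegree_pow _ _).trans ?_
        rw [mul_comm]
        exact Nat.mul_le_mul_right _ (hf i)
    _ = 2 * ∑ i ∈ m.support, m i := by rw [Finset.mul_sum]
    _ ≤ 2 * δ := Nat.mul_le_mul_left _ ((MvPolynomial.le_totalDegree hm).trans hP)

/-- **Windows** -/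
theorem leg_window (r q : ℕ) : ∃ E : ℕ → ℕ, PB E ∧ ∀ (δ H n : ℕ), (H + 2) ^ E δ ≤ n →
    ∀ (υ : Type) [Fintype υ] (w : υ → ℂ), Fintype.card υ = q →
    ∃ S : Finset ℕ, S.card ≤ q + 2 ∧ ∀ m : Fin r → ℕ, Function.Injective m →
      (∀ i, n ≤ m i ∧ m i ≤ n + H ∧ m i ∉ S) →
      ¬ RelK δ (fun o : Option υ => o.elim (Real.pi : ℂ) w) (tup per m) := by
  classical
  obtain ⟨E₁, α, hval⟩ := leg_vals
  obtain ⟨E₂, hE₂p, hE₂⟩ := awh_exp Evl Evl_pb (σ := Fin 3) r (q + 2) 1 1
  refine ⟨fun δ => 2 * (1 + E₁ + E₂ (2 * δ)), (PB.const 2).mul ((PB.const (1 + E₁)).add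
    (hE₂p.comp ((PB.const 2).mul PB.id))), fun δ H n hn υ _ w hw => ?_⟩
  set E := 1 + E₁ + E₂ (2 * δ) with hE
  set t : ℕ := n + H + 1 with ht
  -- sizes
  have hH1 : (H + 1 + 2) ≤ (H + 2) ^ 2 := by nlinarith
  have hbig : ∀ a ≤ E, (H + 1 + 2) ^ a ≤ t := by
    intro a ha
    calc (H + 1 + 2) ^ a ≤ ((H + 2) ^ 2) ^ a := Nat.pow_le_pow_left hH1 a
      _ = (H + 2) ^ (2 * a) := by rw [← pow_mul]
      _ ≤ (H + 2) ^ (2 * E) := Nat.pow_le_pow_right (by omega) (by omega)
      _ ≤ n := hn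
      _ ≤ t := by omega
  set γ : ℝ := α + 1 / 2 * Real.log t with hγ
  set v : Option υ ⊕ Unit → ℂ := Sum.elim (fun o => o.elim (Real.pi : ℂ) w) (fun _ => (γ : ℂ)) with hv
  have hvc : (Finset.univ : Finset (Option υ ⊕ Unit)).card = q + 2 := by
    rw [Finset.card_univ, Fintype.card_sum, Fintype.card_option, Fintype.card_unit, hw]
  obtain ⟨S, hS, hwin⟩ := hE₂ (2 * δ) ℂ ℕ (fun t => t) (fun t g (a : Fin 3) => ((lgv t g a : ℝ) : ℂ)) leg_inp
    (H + 1) t (hbig _ (by omega)) _ v Finset.univ hvc (Pool.Agent.Y916.Om.Dom.univ v)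
  refine ⟨S.image fun g => t - g, Finset.card_image_le.trans hS, fun m hm hmb hrel => ?_⟩
  obtain ⟨K, hK, hKd, P, hP, hP0, hne⟩ := hrel
  set g : Fin r → ℕ := fun i => t - m i with hg
  have hgm : ∀ i, t - g i = m i := fun i => by
    have := (hmb i).2.1
    simp only [hg]
    omega
  have hginj : Function.Injective g := by
    intro i j hij
    apply hm
    rw [← hgm i, ← hgm j, hij]
  have hgb : ∀ i, 1 ≤ g i ∧ g i ≤ H + 1 ∧ g i ∉ S := by
    intro i
    refine ⟨?_, ?_, fun h => (hmb i).2.2 (Finset.mem_image.2 ⟨g i, h, hgm i⟩)⟩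
    · have := (hmb i).2.1
      simp only [hg]
      omega
    · have := (hmb i).1
      simp only [hg]
      omega
  set Q : MvPolynomial ((Option υ ⊕ Unit) ⊕ Fin r × Fin 3) K := MvPolynomial.aeval (sbK K r) P with hQ
  have hQd : Q.totalDegree ≤ 2 * δ := aeval_deg2 _ (sbK_deg K r) P hP
  -- the values
  have hvals : ∀ i : Fin r, (KK (1 / (m i : ℝ)) = Real.pi / 2 * lgv t (g i) 0 ∧
      EE (1 / (m i : ℝ)) = Real.pi / 2 * lgv t (g i) 1 ∧
      KK (1 - 1 / (m i : ℝ)) = lgv t (g i) 2 + γ * lgv t (g i) 0) := by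
    intro i
    have h1 := hval (g i) t ((Nat.pow_le_pow_left (by have := (hgb i).2.1; omega) _).trans (hbig E₁ (by omega)))
    have hcast : ((t : ℝ) - g i) = m i := by
      have h2 : m i + g i = t := by
        have := (hmb i).2.1
        simp only [hg]
        omega
      rw [← h2]
      push_cast
      ring
    rw [hcast] at h1
    exact h1
  have hQv : ∀ (R : Type) [CommRing R] [Algebra ℂ R] (z : Fin r × Fin 3 → R),
      MvPolynomial.aeval (Sum.elim (fun j => algebraMap ℂ R (v j)) z) Q =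
      MvPolynomial.aeval (Sum.elim (fun o : Option υ => algebraMap ℂ R (o.elim (Real.pi : ℂ) w)) (fun p =>
        (![algebraMap ℂ R ((Real.pi / 2 : ℝ) : ℂ) * z (p.1, 0), algebraMap ℂ R ((Real.pi / 2 : ℝ) : ℂ) * z (p.1, 1),
          z (p.1, 2) + algebraMap ℂ R (γ : ℂ) * z (p.1, 0)] : Fin 3 → R) p.2)) P := by
    intro R _ _ z
    rw [hQ, MvPolynomial.comp_aeval_apply]
    congr 1
    congr 1
    funext i
    rcases i with o | ⟨i, a⟩
    · show MvPolynomial.aeval _ (MvPolynomial.X _) = _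
      rw [MvPolynomial.aeval_X]
      rfl
    · have h2 : (algebraMap K R) (1 / 2) = algebraMap ℂ R (1 / 2) := by
        rw [IsScalarTower.algebraMap_apply K ℂ R]
        congr 1
      fin_cases a
      · show MvPolynomial.aeval _ (MvPolynomial.C _ * (MvPolynomial.X _ * MvPolynomial.X _)) = _
        rw [map_mul, map_mul, MvPolynomial.aeval_X, MvPolynomial.aeval_X, MvPolynomial.aeval_C, h2]
        show algebraMap ℂ R (1 / 2) * (algebraMap ℂ R (Real.pi : ℂ) * z (i, 0)) =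
          algebraMap ℂ R ((Real.pi / 2 : ℝ) : ℂ) * z (i, 0)
        rw [← mul_assoc, ← map_mul]
        congr 2
        push_cast
        ring
      · show MvPolynomial.aeval _ (MvPolynomial.C _ * (MvPolynomial.X _ * MvPolynomial.X _)) = _
        rw [map_mul, map_mul, MvPolynomial.aeval_X, MvPolynomial.aeval_X, MvPolynomial.aeval_C, h2]
        show algebraMap ℂ R (1 / 2) * (algebraMap ℂ R (Real.pi : ℂ) * z (i, 1)) =
          algebraMap ℂ R ((Real.pi / 2 : ℝ) : ℂ) * z (i, 1)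
        rw [← mul_assoc, ← map_mul]
        congr 2
        push_cast
        ring
      · show MvPolynomial.aeval _ (MvPolynomial.X _ + MvPolynomial.X _ * MvPolynomial.X _) = _
        rw [map_add, map_mul, MvPolynomial.aeval_X, MvPolynomial.aeval_X, MvPolynomial.aeval_X]
        rfl
  have hx : (fun p : Fin r × Fin 3 => (![algebraMap ℂ ℂ ((Real.pi / 2 : ℝ) : ℂ) * ((lgv t (g p.1) 0 : ℝ) : ℂ),
      algebraMap ℂ ℂ ((Real.pi / 2 : ℝ) : ℂ) * ((lgv t (g p.1) 1 : ℝ) : ℂ),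
      ((lgv t (g p.1) 2 : ℝ) : ℂ) + algebraMap ℂ ℂ (γ : ℂ) * ((lgv t (g p.1) 0 : ℝ) : ℂ)] : Fin 3 → ℂ) p.2) =
      tup per m := by
    funext ⟨i, a⟩
    obtain ⟨h1, h2, h3⟩ := hvals i
    fin_cases a
    · show ((Real.pi / 2 : ℝ) : ℂ) * ((lgv t (g i) 0 : ℝ) : ℂ) = (KK (1 / (m i : ℝ)) : ℂ)
      rw [h1]
      push_cast
      rfl
    · show ((Real.pi / 2 : ℝ) : ℂ) * ((lgv t (g i) 1 : ℝ) : ℂ) = (EE (1 / (m i : ℝ)) : ℂ)
      rw [h2]
      push_cast
      rfl
    · show ((lgv t (g i) 2 : ℝ) : ℂ) + (γ : ℂ) * ((lgv t (g i) 0 : ℝ) : ℂ) = (KK (1 - 1 / (m i : ℝ)) : ℂ)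
      rw [h3]
      push_cast
      rfl
  have hQ0 : MvPolynomial.aeval (Sum.elim v fun p : Fin r × Fin 3 => ((lgv t (g p.1) p.2 : ℝ) : ℂ)) Q = 0 := by
    have h1 := hQv ℂ fun p : Fin r × Fin 3 => ((lgv t (g p.1) p.2 : ℝ) : ℂ)
    rw [hx] at h1
    exact h1.trans hP0
  have h5 := hwin g hginj hgb K hK (hKd.trans (by omega)) (fun p => ((lgv t (g p.1) p.2 : ℝ) : ℂ))
    (fun p => ⟨1, one_ne_zero, by simp⟩) Q hQd hQ0
  apply hne
  have h6 := hQv (MvPolynomial (Fin r × Fin 3) ℂ) MvPolynomial.X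
  have h7 : (fun j => algebraMap ℂ (MvPolynomial (Fin r × Fin 3) ℂ) (v j)) = fun j => MvPolynomial.C (v j) := rfl
  rw [h7, h5] at h6
  -- the substitution is injective
  have h8 : MvPolynomial.aeval (LK r 1 γ) (MvPolynomial.aeval (Sum.elim (fun o : Option υ =>
      MvPolynomial.C (o.elim (Real.pi : ℂ) w)) MvPolynomial.X) P : MvPolynomial (Fin r × Fin 3) ℂ) = 0 := by
    have h9 : ((MvPolynomial.aeval (LK r 1 γ) : MvPolynomial (Fin r × Fin 3) ℂ →ₐ[ℂ] _).restrictScalars K).comp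
        (MvPolynomial.aeval (Sum.elim (fun o : Option υ => MvPolynomial.C (o.elim (Real.pi : ℂ) w)) MvPolynomial.X)) =
        (MvPolynomial.aeval (Sum.elim (fun o : Option υ => algebraMap ℂ (MvPolynomial (Fin r × Fin 3) ℂ)
          (o.elim (Real.pi : ℂ) w)) (fun p =>
        (![algebraMap ℂ (MvPolynomial (Fin r × Fin 3) ℂ) ((Real.pi / 2 : ℝ) : ℂ) * MvPolynomial.X (p.1, 0),
          algebraMap ℂ (MvPolynomial (Fin r × Fin 3) ℂ) ((Real.pi / 2 : ℝ) : ℂ) * MvPolynomial.X (p.1, 1),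
          MvPolynomial.X (p.1, 2) + algebraMap ℂ (MvPolynomial (Fin r × Fin 3) ℂ) (γ : ℂ) * MvPolynomial.X (p.1, 0)] :
          Fin 3 → MvPolynomial (Fin r × Fin 3) ℂ) p.2)) : MvPolynomial ((Option υ) ⊕ Fin r × Fin 3) K →ₐ[K] _) := by
      refine MvPolynomial.algHom_ext fun i => ?_
      rw [AlgHom.comp_apply, MvPolynomial.aeval_X, MvPolynomial.aeval_X]
      rcases i with o | ⟨i, a⟩
      · show MvPolynomial.aeval (LK r 1 γ) (MvPolynomial.C _) = _
        rw [MvPolynomial.aeval_C]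
        rfl
      · show MvPolynomial.aeval (LK r 1 γ) (MvPolynomial.X (i, a)) = _
        rw [MvPolynomial.aeval_X]
        unfold LK
        fin_cases a
        · show MvPolynomial.rename _ (MvPolynomial.C _ * MvPolynomial.X _) = _
          rw [map_mul, MvPolynomial.rename_C, MvPolynomial.rename_X]
          rfl
        · show MvPolynomial.rename _ (MvPolynomial.C _ * MvPolynomial.X _) = _
          rw [map_mul, MvPolynomial.rename_C, MvPolynomial.rename_X]
          rfl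
        · show MvPolynomial.rename _ (MvPolynomial.C ((1 : ℝ) : ℂ) * MvPolynomial.X _ + MvPolynomial.C _ * MvPolynomial.X _) = _
          rw [map_add, map_mul, map_mul, MvPolynomial.rename_C, MvPolynomial.rename_X, MvPolynomial.rename_C,
            MvPolynomial.rename_X, Complex.ofReal_one, MvPolynomial.C_1, one_mul]
          rfl
    have h10 := DFunLike.congr_fun h9 P
    rw [AlgHom.comp_apply] at h10
    exact h10.trans h6.symm
  have h11 := LK_inv r 1 γ one_ne_zero (MvPolynomial.aeval (Sum.elim (fun o : Option υ =>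
      MvPolynomial.C (o.elim (Real.pi : ℂ) w)) MvPolynomial.X) P : MvPolynomial (Fin r × Fin 3) ℂ)
  rw [h8, map_zero] at h11
  exact h11.symm

end Pool.Agent.R351.GD
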